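import Pool.Agent.Q271.KR.CFour

set_option autoImplicit false

/-!
# MP_de689f, Q1: negative answer for `C₄`-free graphs
-/

namespace Pool.Agent.Results.MP_de689f_co.CFourFree

open SimpleGraph Pool.Agent.Q271.KR

/-- **MP_de689f, Q1, negative answer.** For every `l ≥ 4` there is a finite 3-colourable graph
without any cycle of length 4 (induced or not) that has two `l`-colourings which are not Kempe
equivalent. -/
theorem result (l : ℕ) (hl : 4 ≤ l) :
    ∃ (V : Type) (_ : Fintype V) (G : SimpleGraph V), (cycleGraph 4).Free G ∧ G.Colorable 3 ∧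
      ∃ α β : G.Coloring (Fin l), ¬ KempeEquiv G α β :=
  CFour.main l hl

end Pool.Agent.Results.MP_de689f_co.CFourFree
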