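import Pool.Agent.Q271.KR.ThreeK

set_option autoImplicit false

/-!
# MP_de689f, Q2: positive answer for `3K₁`-free graphs, with `c = 1`
-/

namespace Pool.Agent.Results.MP_de689f_co.ThreeKOneFree

open SimpleGraph Pool.Agent.Q271.KR

/-- **MP_de689f, Q2, positive answer with the constant `c = 1`.** If the finite graph `G` has no
induced `3K₁` and is `k`-colourable, then any two `(k + 1)`-colourings of `G` are Kempe
equivalent. -/
theorem result {V : Type} [Fintype V] (G : SimpleGraph V)
    (hG : IsEmpty ((⊥ : SimpleGraph (Fin 3)) ↪g G)) (k : ℕ) (hk : G.Colorable k)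
    (α β : G.Coloring (Fin (k + 1))) : KempeEquiv G α β :=
  ThreeK.main G hG k hk α β

end Pool.Agent.Results.MP_de689f_co.ThreeKOneFree
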